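import Pool.Agent.Helper74.FP.Goals

/-!
# Project FP: F4, the core
-/

set_option autoImplicit false

namespace Pool.Agent.Helper38.FP

open Pool.Agent.Helper52.Wq2 Pool.Agent.Helper74.FP Monoid Monoid.CoprodI

universe u

/-! ### Connected sets -/

/-- A connected set inside `s` which meets a closed subset `A` of `s` lies in `A`. -/
theorem conn_sub {V : Type u} {G : SimpleGraph V} {s t A : Set V} (ht : Conn G t) (hts : t ⊆ s)
    (hA : ∀ a ∈ A, ∀ b ∈ s, G.Adj a b → b ∈ A) (x : V) (hx : x ∈ t) (hxA : x ∈ A) : t ⊆ A := by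
  have h := ht.2 (A ∩ t) Set.inter_subset_right ⟨x, hxA, hx⟩
    (fun a ha b hb hab => ⟨hA a ha.1 b (hts hb) hab, hb⟩)
  exact fun y hy => (h hy).1

/-- Union of connected sets through one point. -/
theorem conn_sUnion {V : Type u} {G : SimpleGraph V} (F : Set (Set V)) (x₀ : V)
    (hF : F.Nonempty) (h : ∀ t ∈ F, Conn G t ∧ x₀ ∈ t) : Conn G (⋃₀ F) := by
  obtain ⟨t₀, ht₀⟩ := hF
  refine ⟨⟨x₀, t₀, ht₀, (h t₀ ht₀).2⟩, ?_⟩
  rintro A hA ⟨a, ha⟩ hcl x ⟨t, ht, hxt⟩
  obtain ⟨u, hu, hau⟩ := hA ha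
  have h1 : x₀ ∈ A := conn_sub (h u hu).1 (Set.subset_sUnion_of_mem hu) hcl a hau ha (h u hu).2
  exact conn_sub (h t ht).1 (Set.subset_sUnion_of_mem ht) hcl x₀ (h t ht).2 h1 hxt

theorem conn_singleton {V : Type u} (G : SimpleGraph V) (x : V) : Conn G {x} := by
  refine ⟨⟨x, rfl⟩, ?_⟩
  rintro A hA ⟨a, ha⟩ - y rfl
  have := hA ha
  rw [Set.mem_singleton_iff] at this
  rw [← this]
  exact ha

/-- The image of a connected set under a map that preserves adjacency. -/
theorem conn_image {V W : Type u} {G : SimpleGraph V} {H : SimpleGraph W} (f : V → W) {s : Set V}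
    (hf : ∀ a b, G.Adj a b → H.Adj (f a) (f b)) (hs : Conn G s) :
    Conn H {x | ∃ y ∈ s, x = f y} := by
  obtain ⟨⟨x₀, hx₀⟩, h⟩ := hs
  refine ⟨⟨f x₀, x₀, hx₀, rfl⟩, ?_⟩
  rintro A hA ⟨a, ha⟩ hcl x ⟨y, hy, rfl⟩
  obtain ⟨a', ha', rfl⟩ := hA ha
  have h1 := h {y | y ∈ s ∧ f y ∈ A} (fun y hy => hy.1) ⟨a', ha', ha⟩
    (fun b hb c hc hbc => ⟨hc, hcl _ hb.2 _ ⟨c, hc, rfl⟩ (hf b c hbc)⟩)
  exact (h1 hy).2

/-! ### Words -/

section

variable {ι : Type} {A B : ι → Type u} [∀ i, Group (A i)] [∀ i, Group (B i)]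
variable (r : ∀ i, A i → B i) (hr : ∀ i a, a ≠ 1 → r i a ≠ 1)

/-- The letterwise image of a reduced word. -/
def fw (w : Word A) : Word B where
  toList := w.toList.map (fun l => ⟨l.1, r l.1 l.2⟩)
  ne_one := by
    intro l hl
    rw [List.mem_map] at hl
    obtain ⟨l', hl', rfl⟩ := hl
    exact hr _ _ (w.ne_one _ hl')
  chain_ne := (List.isChain_map _).2 w.chain_ne

theorem fw_fstIdx (w : Word A) : (fw r hr w).fstIdx = w.fstIdx := by
  unfold Word.fstIdx fw
  rw [List.head?_map]
  cases w.toList.head? <;> rfl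

theorem fw_inj (hinj : ∀ i, Function.Injective (r i)) : Function.Injective (fw r hr) := by
  intro w w' h
  have h1 : (fw r hr w).toList = (fw r hr w').toList := congrArg Word.toList h
  apply Word.ext
  refine List.map_injective_iff.2 ?_ h1
  rintro ⟨i, a⟩ ⟨j, b⟩ h2
  have h2' : (⟨i, r i a⟩ : Σ i, B i) = ⟨j, r j b⟩ := h2
  obtain ⟨h3, h4⟩ := Sigma.mk.inj_iff.1 h2'
  subst h3
  have h5 : a = b := hinj i (eq_of_heq h4)
  rw [h5]

end

theorem cayL_of {ι : Type} {B : ι → Type u} [∀ i, Group (B i)] (T : ∀ i, Set (B i)) (i : ι)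
    (y : CoprodI B) (b b' : B i) (h : (cayL (T i)).Adj b b') :
    (cayL (US T)).Adj (of b * y) (of b' * y) := by
  unfold cayL at h ⊢
  rw [SimpleGraph.fromRel_adj] at h ⊢
  refine ⟨fun e => h.1 (of_injective i (mul_right_cancel e)), ?_⟩
  refine h.2.imp ?_ ?_
  · intro h1
    refine ⟨i, _, h1, ?_⟩
    rw [map_mul, map_inv]
    group
  · intro h1
    refine ⟨i, _, h1, ?_⟩
    rw [map_mul, map_inv]
    group

/-- **F4.** -/
theorem f4 : F4Stmt.{u} := by
  classical
  intro ι A B _ _ S T V hS hT hM h1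
  -- the choice of the points
  have hdis : ∀ i a a' b, b ∈ V i a → b ∈ V i a' → a = a' := fun i a a' b h h' =>
    (hM i).2.1 a a' b h h'
  have hne : ∀ i a, (V i a).Nonempty := fun i a => ((hM i).1 a).1
  obtain ⟨r, hrV, hr1⟩ : ∃ r : ∀ i, A i → B i, (∀ i a, r i a ∈ V i a) ∧ ∀ i, r i 1 = 1 := by
    refine ⟨fun i a => if a = 1 then 1 else (hne i a).some, ?_, fun i => if_pos rfl⟩
    intro i a
    by_cases ha : a = 1
    · subst ha
      simp only [if_true]
      exact h1 i
    · simp only [if_neg ha]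
      exact (hne i a).some_mem
  have hinj : ∀ i, Function.Injective (r i) := fun i a a' h =>
    hdis i a a' (r i a) (hrV i a) (h ▸ hrV i a')
  have hr : ∀ i a, a ≠ 1 → r i a ≠ 1 := fun i a ha h => ha (hinj i (h.trans (hr1 i).symm))
  let f : Word A → Word B := fw r hr
  have hf1 : ∀ w, (f w).fstIdx = w.fstIdx := fw_fstIdx r hr
  have hf2 : Function.Injective f := fw_inj r hr hinj
  have hprod : Function.Injective (Word.prod : Word B → CoprodI B) := Word.equiv.symm.injective
  -- the parts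
  let P : Word A → ι → Set (CoprodI B) := fun w i =>
    {x | ∃ p : Word.Pair A i, Word.rcons p = w ∧ ∃ b ∈ V i p.head, x = of b * (f p.tail).prod}
  have hfr : ∀ (i : ι) (p : Word.Pair A i),
      (f (Word.rcons p)).prod = of (r i p.head) * (f p.tail).prod := by
    intro i p
    by_cases hp : p.head = 1
    · have : Word.rcons p = p.tail := by
        unfold Word.rcons
        rw [dif_pos hp]
      rw [this, hp, hr1, map_one, one_mul]
    · have : Word.rcons p = Word.cons p.head p.tail p.fstIdx_ne hp := by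
        unfold Word.rcons
        rw [dif_neg hp]
      rw [this]
      rfl
  have D2 : ∀ w i, (f w).prod ∈ P w i := by
    intro w i
    refine ⟨Word.equivPair i w, ?_, r i (Word.equivPair i w).head, hrV _ _, ?_⟩
    · rw [← Word.equivPair_symm, Equiv.symm_apply_apply]
    · rw [← hfr, ← Word.equivPair_symm, Equiv.symm_apply_apply]
  have hP : ∀ (i : ι) (p : Word.Pair A i) (b : B i),
      ∃ q : Word.Pair B i, q.head = b ∧ q.tail = f p.tail ∧
        of b * (f p.tail).prod = (Word.rcons q).prod := by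
    intro i p b
    refine ⟨⟨b, f p.tail, by rw [hf1]; exact p.fstIdx_ne⟩, rfl, rfl, ?_⟩
    rw [Word.prod_rcons]
  have hpair : ∀ (i : ι) (p p' : Word.Pair A i), p.head = p'.head → p.tail = p'.tail →
      p = p' := by
    rintro i ⟨a, t, h⟩ ⟨a', t', h'⟩ h3 h4
    dsimp only at h3 h4
    subst h3 h4
    rfl
  have D1 : ∀ w w' i x, x ∈ P w i → x ∈ P w' i → w = w' := by
    rintro w w' i x ⟨p, rfl, b, hb, rfl⟩ ⟨p', rfl, b', hb', he⟩
    obtain ⟨q, hq1, hq2, hq3⟩ := hP i p b
    obtain ⟨q', hq1', hq2', hq3'⟩ := hP i p' b'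
    rw [hq3, hq3'] at he
    have h3 := Word.rcons_inj (hprod he)
    have h4 : b = b' := by rw [← hq1, ← hq1', h3]
    have h5 : p.tail = p'.tail := hf2 (by rw [← hq2, ← hq2', h3])
    subst h4
    rw [hpair i p p' (hdis i _ _ b hb hb') h5]
  have D3 : ∀ w w' i j x, i ≠ j → x ∈ P w i → x ∈ P w' j →
      x = (f w).prod ∨ x = (f w').prod := by
    rintro w w' i j x hij ⟨p, rfl, b, hb, rfl⟩ ⟨p', rfl, b', hb', he⟩
    by_cases hb1 : b = 1
    · left
      subst hb1
      have h3 : p.head = 1 := hdis i _ _ 1 hb (h1 i)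
      rw [hfr, h3, hr1]
    · by_cases hb1' : b' = 1
      · right
        subst hb1'
        have h3 : p'.head = 1 := hdis j _ _ 1 hb' (h1 j)
        rw [he, hfr, h3, hr1]
      · exfalso
        obtain ⟨q, hq1, hq2, hq3⟩ := hP i p b
        obtain ⟨q', hq1', hq2', hq3'⟩ := hP j p' b'
        rw [hq3, hq3'] at he
        have h3 := hprod he
        have h4 : (Word.rcons q).fstIdx = some i := by
          unfold Word.rcons
          rw [dif_neg (by rw [hq1]; exact hb1), Word.fstIdx_cons]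
        have h5 : (Word.rcons q').fstIdx = some j := by
          unfold Word.rcons
          rw [dif_neg (by rw [hq1']; exact hb1'), Word.fstIdx_cons]
        rw [h3, h5] at h4
        exact hij (Option.some_injective _ h4).symm
  -- the branch sets
  let Br : Word A → Set (CoprodI B) := fun w => ⋃₀ ({{(f w).prod}} ∪ Set.range (P w))
  have hBr : ∀ w x, x ∈ Br w ↔ x = (f w).prod ∨ ∃ i, x ∈ P w i := by
    intro w x
    constructor
    · rintro ⟨t, ht | ⟨i, rfl⟩, hx⟩
      · rw [Set.mem_singleton_iff] at ht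
        subst ht
        exact Or.inl hx
      · exact Or.inr ⟨i, hx⟩
    · rintro (h | ⟨i, hx⟩)
      · exact ⟨{(f w).prod}, Or.inl rfl, h⟩
      · exact ⟨P w i, Or.inr ⟨i, rfl⟩, hx⟩
  have hPP : ∀ w w' i x, x = (f w).prod → x ∈ P w' i → w = w' := by
    rintro w w' i x rfl hx
    exact D1 w w' i _ (D2 w i) hx
  have hdisj : ∀ w w' x, x ∈ Br w → x ∈ Br w' → w = w' := by
    intro w w' x hx hx'
    rw [hBr] at hx hx'
    rcases hx with hx | ⟨i, hx⟩
    · rcases hx' with hx' | ⟨j, hx'⟩
      · exact hf2 (hprod (hx.symm.trans hx'))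
      · exact hPP w w' j x hx hx'
    · rcases hx' with hx' | ⟨j, hx'⟩
      · exact (hPP w' w i x hx' hx).symm
      · by_cases hij : i = j
        · subst hij
          exact D1 w w' i x hx hx'
        · rcases D3 w w' i j x hij hx hx' with h | h
          · exact hPP w w' j x h hx'
          · exact (hPP w' w i x h hx).symm
  have hconn : ∀ w, Conn (cayL (US T)) (Br w) := by
    intro w
    refine conn_sUnion _ (f w).prod ⟨_, Or.inl rfl⟩ ?_
    rintro t (ht | ⟨i, rfl⟩)
    · rw [Set.mem_singleton_iff] at ht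
      subst ht
      exact ⟨conn_singleton _ _, rfl⟩
    · refine ⟨?_, D2 w i⟩
      have h3 := conn_image (H := cayL (US T))
        (fun b : B i => of b * (f (Word.equivPair i w).tail).prod)
        (fun a b hab => cayL_of T i _ a b hab) ((hM i).1 (Word.equivPair i w).head)
      have h4 : P w i = {x | ∃ y ∈ V i (Word.equivPair i w).head,
          x = of y * (f (Word.equivPair i w).tail).prod} := by
        ext x
        constructor
        · rintro ⟨p, rfl, b, hb, rfl⟩
          have h5 : Word.equivPair i (Word.rcons p) = p := by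
            rw [← Word.equivPair_symm, Equiv.apply_symm_apply]
          rw [h5]
          exact ⟨b, hb, rfl⟩
        · rintro ⟨b, hb, rfl⟩
          refine ⟨Word.equivPair i w, ?_, b, hb, rfl⟩
          rw [← Word.equivPair_symm, Equiv.symm_apply_apply]
      rw [h4]
      exact h3
  have hprodA : ∀ x : CoprodI A, (Word.equiv x).prod = x := fun x =>
    Word.equiv.symm_apply_apply x
  have hadj : ∀ x x' : CoprodI A, (∃ i, ∃ s ∈ S i, x' * x⁻¹ = of s) →
      ∃ a ∈ Br (Word.equiv x), ∃ b ∈ Br (Word.equiv x'), (cayL (US T)).Adj a b := by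
    rintro x x' ⟨i, s, hs, hx⟩
    let p := Word.equivPair i (Word.equiv x)
    have hp : Word.rcons p = Word.equiv x := by
      rw [← Word.equivPair_symm, Equiv.symm_apply_apply]
    let p' : Word.Pair A i := ⟨s * p.head, p.tail, p.fstIdx_ne⟩
    have hp' : Word.rcons p' = Word.equiv x' := by
      have h3 : x' = (Word.rcons p').prod := by
        rw [Word.prod_rcons]
        change x' = of (s * p.head) * p.tail.prod
        rw [map_mul, mul_assoc, ← Word.prod_rcons, hp, hprodA, ← hx]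
        group
      rw [h3]
      exact (Word.equiv.apply_symm_apply (Word.rcons p')).symm
    have hne : s ≠ 1 := by
      rintro rfl
      exact (hS i).2.2 hs
    have h3 : (cayL (S i)).Adj p.head (s * p.head) := by
      unfold cayL
      rw [SimpleGraph.fromRel_adj]
      refine ⟨fun e => hne ?_, Or.inl ?_⟩
      · have : (1 : A i) * p.head = s * p.head := by rw [one_mul]; exact e
        exact (mul_right_cancel this).symm
      · rw [mul_inv_cancel_right]
        exact hs
    obtain ⟨b, hb, b', hb', hbb⟩ := (hM i).2.2 _ _ h3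
    refine ⟨of b * (f p.tail).prod, (hBr _ _).2 (Or.inr ⟨i, p, hp, b, hb, rfl⟩),
      of b' * (f p.tail).prod, (hBr _ _).2 (Or.inr ⟨i, p', hp', b', hb', rfl⟩),
      cayL_of T i _ b b' hbb⟩
  refine ⟨fun x => Br (Word.equiv x), fun x => hconn _, ?_, ?_⟩
  · intro x x' y hy hy'
    exact Word.equiv.injective (hdisj _ _ y hy hy')
  · intro x x' hxx
    unfold cayL at hxx
    rw [SimpleGraph.fromRel_adj] at hxx
    rcases hxx.2 with ⟨i, s, hs, h⟩ | ⟨i, s, hs, h⟩
    · exact hadj x x' ⟨i, s, hs, h⟩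
    · obtain ⟨a, ha, b, hb, hab⟩ := hadj x' x ⟨i, s, hs, h⟩
      exact ⟨b, hb, a, ha, hab.symm⟩

end Pool.Agent.Helper38.FP
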